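import Pool.Agent.H6.QP.Fin

/-!
# MP_09efc9_co: every `k`-matching-planar graph is `(4^(k+3)+1)`-quasi-planar

Topological graphs (`Drawing`), crossings, `k`-matching-planar and `m`-quasi-planar graphs are defined
in `Pool/Agent/H6/QP/Defs.lean`.
-/

set_option autoImplicit false

namespace Pool.Agent.Results.MP_09efc9_co.QuasiPlanar

/-- Every finite `k`-matching-planar graph (a graph which has a drawing in the plane in which no edge
is crossed by `k + 1` pairwise vertex-disjoint edges) has a drawing in the plane without
`4 ^ (k + 3) + 1` pairwise crossing edges. -/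
theorem result (k : ℕ) (V : Type) [Finite V] (G : SimpleGraph V)
    (h : QP.MatchingPlanar G k) : QP.QuasiPlanar G (4 ^ (k + 3) + 1) :=
  QP.matchingPlanar_quasiPlanar k V G h

end Pool.Agent.Results.MP_09efc9_co.QuasiPlanar
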